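import Mathlib
import Pool.Prelude.Def_H_3587d628
import Pool.Agent.Lib.MP_3cc314_lc.CgAll
import Pool.Agent.Lib.MP_3cc314_lc.CgG3
import Pool.Agent.Lib.MP_3cc314_lc.CgGo
import Pool.Agent.Lib.MP_3cc314_lc.CgRp
import Pool.Agent.Lib.MP_3cc314_lc.CgSA0
import Pool.Agent.Lib.MP_3cc314_lc.CgA3t

namespace Pool.Agent.Results.MP_3cc314_lc.InP
open Pool.Agent.Lib.MP_3cc314_lc

theorem result : ∃ A : List (List Bool) → Bool, N68a2faeb.IsPolyTime A ∧
    ∀ (n : ℕ) (G : SimpleGraph (Fin n)) [DecidableRel G.Adj],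
      A (List.ofFn fun i => List.ofFn fun j => decide (G.Adj i j)) = true ↔ Compact G :=
  Cg.final_big (Cg.sBig_of' Cg.sR Cg.sOut (Cg.sA_of fun _ _ _ _ b h => b.twoB h))

end Pool.Agent.Results.MP_3cc314_lc.InP
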