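import Mathlib
import Pool.Agent.Lib.MP_3cc314_lc.Class

namespace Pool.Agent.Results.MP_3cc314_lc.PrimitiveClass
open Pool.Agent.Lib.MP_3cc314_lc

theorem result (n : ℕ) (G : SimpleGraph (Fin n)) [DecidableRel G.Adj]
    (h : MulAction.IsPreprimitive (G ≃g G) (Fin n)) :
    Compact G ↔ G = ⊥ ∨ G = ⊤ ∨ (n.Prime ∧ Nat.card (G ≃g G) = 2 * n) := by
  simpa using compact_iff (G := G)

end Pool.Agent.Results.MP_3cc314_lc.PrimitiveClass
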